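import Pool.Agent.Helper90.HR1.Ad
import Pool.Agent.Helper10.BLD.St

/-! (R1) in the form of the builder gives (R1) for the rounded top forms, and so (R1) for the tangents in the coordinates
of weight one. -/

set_option autoImplicit false

namespace Pool.Agent.Helper22.ADM

open Finset Filter Topology MvPolynomial Pool.Agent.Helper69.RK Pool.Agent.Helper31.EC Pool.Agent.Helper31.EC.Sp
open Pool.Agent.Helper40.EL Pool.Agent.Helper89.LX Pool.Agent.Helper3.LF Pool.Agent.Helper84.MT
open Pool.Agent.Helper36.AM Pool.Agent.Helper49.MD Pool.Agent.Helper26.OUT Pool.Agent.Helper90.HR1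

noncomputable section

variable {S : Sp} {M g r : ℕ} {w : Fin (M + 1) → ℝ}

/-- (R1) of the builder gives (R1) of the rounded top forms -/
theorem r1_of_top {s : MSys S (M + 1) (lin g) (Fin r)} (hs : WDs w s) (h1 : Pool.Agent.Helper10.BLD.R1 w s) :
    Pool.Agent.Helper90.HR1.R1 w s := by
  classical
  rw [R1_iff hs]
  set I0 := {q : Tix (fun i => (s.lf i).e) (M + 1) (wb w) // ∑ i, ((q.2.2 i : ℕ) : ℝ) = w q.2.1} with hI0
  set f : Fin (Fintype.card I0) → TR S := fun n => TR.cor (tpV hs) (Fintype.equivFin _ ((Fintype.equivFin I0).symm n).1)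
    with hf
  have hft : ∀ n, Pool.Agent.Helper10.BLD.IsTop w s ((Fintype.equivFin I0).symm n).1.1 (f n) := by
    intro n
    obtain ⟨G, hG, hd⟩ := hs ((Fintype.equivFin I0).symm n).1.1
    refine ⟨((Fintype.equivFin I0).symm n).1.2.1, exf ((Fintype.equivFin I0).symm n).1.2.2,
      fun k ω => G k ω ((Fintype.equivFin I0).symm n).1.2.1, ?_, fun k ω => hd k ω _, ?_, ?_⟩
    · have h2 := ((Fintype.equivFin I0).symm n).2
      rw [← h2, Finsupp.degree_eq_sum]
      push_cast
      rfl
    · filter_upwards [hG] with k hk ω hω y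
      exact hk ω hω y _
    · filter_upwards [hG] with k hk ω hω
      show (tpV hs).v k ω (Fintype.equivFin _ ((Fintype.equivFin I0).symm n).1) = _
      rw [tpV_v]
      unfold tpc
      rw [if_pos ((Fintype.equivFin I0).symm n).2, plf_eq (fun y => hk ω hω y _)]
  have h3 := h1 _ f _ hft
  apply le_antisymm _ (I_nonneg _ _ _)
  rw [← h3]
  apply Pool.Agent.Helper31.EC.I_mono_left
  refine le_trans ?_ le_sup_left
  apply VV.dg_le_dg _ _ _ _ (fun _ _ => True) Typ_true (fun _ => 1) (S.Sub_const zero_le_one)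
  filter_upwards with k ω ω' a b _ _ _ q i
  rw [one_mul]
  obtain ⟨x, rfl⟩ := (Fintype.equivFin (Tix (fun i => (s.lf i).e) (M + 1) (wb w))).surjective i
  by_cases hx : ∑ i, ((x.2.2 i : ℕ) : ℝ) = w x.2.1
  · have h4 := q (Fintype.equivFin I0 ⟨x, hx⟩)
    have e1 : ∀ ω, (TR.vec f).v k ω (Fintype.equivFin I0 ⟨x, hx⟩) =
        (tpV hs).v k ω (Fintype.equivFin (Tix (fun i => (s.lf i).e) (M + 1) (wb w)) x) := by
      intro ω
      show (tpV hs).v k ω (Fintype.equivFin _ ((Fintype.equivFin I0).symm (Fintype.equivFin I0 ⟨x, hx⟩)).1) = _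
      rw [Equiv.symm_apply_apply]
    rw [e1, e1] at h4
    exact h4
  · rw [tpV_v, tpV_v]
    unfold tpc
    rw [if_neg hx, if_neg hx, sub_self, abs_zero]
    exact (S.dl_pos 1 k).le

/-- (R1) of the builder gives (R1) for the tangents in the coordinates of weight one -/
theorem r1_tan {s : MSys S (M + 1) (lin g) (Fin r)} (hs : WDs w s) (h1 : Pool.Agent.Helper10.BLD.R1 w s) :
    Pool.Agent.Helper37.DK2.R1 (Pool.Agent.Helper37.DK2.J1 w) s :=
  (r1_of_top hs h1).tan hs

end

end Pool.Agent.Helper22.ADM
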